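import Pool.Agent.helper93.VN.SpecL

/-!
# Row vn:LGF (MP_07c750_an): the class of regular curves is preserved by the flow
-/

set_option autoImplicit false

open scoped MatrixGroups ContDiff Topology UpperHalfPlane ComplexConjugate ENNReal
open UpperHalfPlane MeasureTheory Filter Set

namespace Pool.Agent.VN

open Pool.Agent.RS Pool.Agent.VQ
open Pool.Agent.RPQ (mean)
open Pool.Agent.VQE (nm)

noncomputable section

theorem LGF_nmc : Continuous (nm : SL(2, ℝ) → ℝ) := by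
  have h : ∀ i j : Fin 2, Continuous fun x : SL(2, ℝ) => x.1 i j := by
    intro i j
    exact (continuous_apply j).comp ((continuous_apply i).comp continuous_subtype_val)
  unfold Pool.Agent.VQE.nm
  exact ((((h 0 0).sub continuous_const).abs).max (h 0 1).abs).max ((h 1 0).abs.max ((h 1 1).sub continuous_const).abs)

theorem LGF_nm1 : nm (1 : SL(2, ℝ)) = 0 := by
  unfold Pool.Agent.VQE.nm
  simp

/-- functions which are Lipschitz with respect to `nm` are continuous -/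
theorem LGF_cont (φ : SL(2, ℝ) → ℝ) (C : ℝ) (h : ∀ g y, nm y ≤ 1 / 10 → |φ (g * y) - φ g| ≤ C * nm y) : Continuous φ := by
  rw [continuous_iff_continuousAt]
  intro g
  have h1 : Tendsto (fun g' : SL(2, ℝ) => nm (g⁻¹ * g')) (𝓝 g) (𝓝 0) := by
    have h2 : Continuous fun g' : SL(2, ℝ) => nm (g⁻¹ * g') := LGF_nmc.comp (continuous_const.mul continuous_id)
    have h3 := h2.tendsto g
    rw [inv_mul_cancel, LGF_nm1] at h3
    exact h3
  have h2 : ∀ᶠ g' in 𝓝 g, nm (g⁻¹ * g') ≤ 1 / 10 := by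
    filter_upwards [h1.eventually (gt_mem_nhds (show (0 : ℝ) < 1 / 10 by norm_num))] with g' hg'
    exact hg'.le
  have h3 : Tendsto (fun g' => C * nm (g⁻¹ * g')) (𝓝 g) (𝓝 0) := by
    have := h1.const_mul C
    rwa [mul_zero] at this
  show Tendsto φ (𝓝 g) (𝓝 (φ g))
  rw [tendsto_iff_dist_tendsto_zero]
  refine squeeze_zero' (Eventually.of_forall fun _ => dist_nonneg) ?_ h3
  filter_upwards [h2] with g' hg'
  have h4 := h g (g⁻¹ * g') hg'
  rw [mul_inv_cancel_left] at h4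
  rw [Real.dist_eq]
  exact h4

/-- curves are continuous -/
theorem LGF_cv {γ : ℝ → SL(2, ℝ)} {x b c : ℝ → ℝ} (h : Cv γ x b c) : Continuous γ := by
  refine Continuous.subtype_mk (f := fun v => (γ v).1) ?_ (fun v => (γ v).2)
  refine continuous_pi fun i => continuous_pi fun j => ?_
  exact continuous_iff_continuousAt.2 fun v => (h.der v i j).continuousAt

/-- numbers -/
theorem LGF_num (C F : ℝ) (hC : 1 ≤ C) (hF : FM C ≤ F) : ∃ G : ℝ, G = (10 * C) ^ 20 ∧ (10 * C) ^ 40 = G ^ 2 ∧ 10000 * C ^ 4 ≤ G ∧ 8 * C ^ 2 ≤ G ∧ 1000 ≤ G ∧ G ^ 2 ≤ F := by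
  refine ⟨_, rfl, by ring, ?_, ?_, ?_, ?_⟩
  · have h1 : (10 * C) ^ 4 ≤ (10 * C) ^ 20 := pow_le_pow_right₀ (by linarith) (by norm_num)
    have h2 : (10 * C) ^ 4 = 10000 * C ^ 4 := by ring
    linarith
  · have h1 : (10 * C) ^ 2 ≤ (10 * C) ^ 20 := pow_le_pow_right₀ (by linarith) (by norm_num)
    have h2 : (10 * C) ^ 2 = 100 * C ^ 2 := by ring
    have h3 : 0 ≤ C ^ 2 := sq_nonneg C
    linarith
  · have h1 : (10 : ℝ) ^ 3 ≤ (10 * C) ^ 3 := pow_le_pow_left₀ (by norm_num) (by linarith) 3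
    have h2 : (10 * C) ^ 3 ≤ (10 * C) ^ 20 := pow_le_pow_right₀ (by linarith) (by norm_num)
    norm_num at h1
    linarith
  · refine le_trans ?_ hF
    unfold FM
    have h1 : 1 ≤ Real.exp (40 * C) := Real.one_le_exp (by linarith)
    have h2 : 0 ≤ (10 * C) ^ 40 := by positivity
    calc ((10 * C) ^ 20) ^ 2 = 1 * (10 * C) ^ 40 := by ring
      _ ≤ _ := mul_le_mul_of_nonneg_right h1 h2

/-- the inequalities for the times `≥ 1` -/
theorem LGF_n1 (C F G z Λ L0 : ℝ) (hC : 1 ≤ C) (h1 : 8 * C ^ 2 ≤ G) (h2 : G ^ 2 ≤ F) (hG : 1000 ≤ G) (hz0 : 0 ≤ z) (hz : z ≤ 1 - 1 / (4 * C ^ 2)) (hΛ : 0 ≤ Λ)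
    (hL : L0 ≤ z * Λ) (hL0 : 0 ≤ L0) :
    z ^ 2 * (2 * F * L0) + G * Λ ≤ 2 * F * Λ ∧ z * (2 * F ^ 2 * L0 + G * (2 * F * L0)) + G ^ 2 * Λ ≤ 2 * F ^ 2 * Λ ∧
      2 * F ^ 3 * L0 + G * (2 * F * L0) + G ^ 2 * Λ ≤ 2 * F ^ 3 * Λ := by
  have hC2 : 1 ≤ C ^ 2 := by nlinarith
  have hd : 0 < 1 / (4 * C ^ 2) := by positivity
  have hz1 : z ≤ 1 := by linarith
  have hF1 : 1000 * G ≤ F := by nlinarith
  have hF0 : 0 < F := by linarith
  have hG0 : 0 < G := by linarith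
  -- `8 C² G ≤ F`
  have hCG : 8 * C ^ 2 * G ≤ F := by nlinarith
  have key : 2 * G ≤ F * (1 / (4 * C ^ 2)) := by
    rw [mul_one_div, le_div_iff₀ (by positivity)]
    linarith
  have hzF : 2 * G ≤ F * (1 - z) := by
    have h3 : F * (1 / (4 * C ^ 2)) ≤ F * (1 - z) := mul_le_mul_of_nonneg_left (by linarith) hF0.le
    linarith
  have hzΛ : z * Λ ≤ Λ := by nlinarith
  have hLΛ : L0 ≤ Λ := by linarith
  refine ⟨?_, ?_, ?_⟩
  · have e1 : z ^ 2 * (2 * F * L0) ≤ 1 * (2 * F * (z * Λ)) := by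
      apply mul_le_mul
      · nlinarith
      · exact mul_le_mul_of_nonneg_left hL (by positivity)
      · positivity
      · norm_num
    have e2 : G * Λ ≤ F * (1 - z) * Λ := mul_le_mul_of_nonneg_right (by linarith) hΛ
    nlinarith [mul_nonneg (mul_nonneg hF0.le (sub_nonneg.2 hz1)) hΛ]
  · have e1 : z * (2 * F ^ 2 * L0 + G * (2 * F * L0)) ≤ 1 * ((2 * F ^ 2 + G * (2 * F)) * (z * Λ)) := by
      apply mul_le_mul hz1 _ (by positivity) (by norm_num)
      have : 2 * F ^ 2 * L0 + G * (2 * F * L0) = (2 * F ^ 2 + G * (2 * F)) * L0 := by ring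
      rw [this]
      exact mul_le_mul_of_nonneg_left hL (by positivity)
    have e2 : 2 * G * F + G ^ 2 ≤ 2 * F * (F * (1 - z)) := by nlinarith
    have e3 : (2 * G * F + G ^ 2) * Λ ≤ 2 * F * (F * (1 - z)) * Λ := mul_le_mul_of_nonneg_right e2 hΛ
    have e4 : G * (2 * F) * (z * Λ) ≤ G * (2 * F) * Λ := mul_le_mul_of_nonneg_left hzΛ (by positivity)
    nlinarith
  · have e1 : 2 * F ^ 3 * L0 + G * (2 * F * L0) ≤ (2 * F ^ 3 + G * (2 * F)) * (z * Λ) := by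
      have : 2 * F ^ 3 * L0 + G * (2 * F * L0) = (2 * F ^ 3 + G * (2 * F)) * L0 := by ring
      rw [this]
      exact mul_le_mul_of_nonneg_left hL (by positivity)
    have e2 : 2 * G * F + G ^ 2 ≤ 2 * F * (F * (1 - z)) := by nlinarith
    have e5 : 2 * F * (F * (1 - z)) ≤ 2 * F ^ 2 * (F * (1 - z)) := by
      have h5 : 0 ≤ F * (1 - z) := by linarith
      have h6 : 2 * F ≤ 2 * F ^ 2 := by nlinarith
      exact mul_le_mul_of_nonneg_right h6 h5
    have e3 : (2 * G * F + G ^ 2) * Λ ≤ 2 * F ^ 2 * (F * (1 - z)) * Λ := mul_le_mul_of_nonneg_right (e2.trans e5) hΛ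
    have e4 : G * (2 * F) * (z * Λ) ≤ G * (2 * F) * Λ := mul_le_mul_of_nonneg_left hzΛ (by positivity)
    nlinarith

/-- the inequalities for the times `≥ 6 C²` -/
theorem LGF_n2 (F G z Λ L0 : ℝ) (h2 : G ^ 2 ≤ F) (hG : 1000 ≤ G) (hz0 : 0 ≤ z) (hz : z ≤ 1 / 5) (hΛ : 0 ≤ Λ)
    (hL : L0 ≤ z * Λ) (hL0 : 0 ≤ L0) :
    z ^ 2 * (2 * F * L0) + G * Λ ≤ 1 / 2 * F * Λ ∧ z * (2 * F ^ 2 * L0 + G * (2 * F * L0)) + G ^ 2 * Λ ≤ 1 / 2 * F ^ 2 * Λ ∧
      2 * F ^ 3 * L0 + G * (2 * F * L0) + G ^ 2 * Λ ≤ 1 / 2 * F ^ 3 * Λ := by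
  have hF1 : 1000 * G ≤ F := by nlinarith
  have hF0 : 0 < F := by linarith
  have hG0 : 0 < G := by linarith
  have hL5 : L0 ≤ 1 / 5 * Λ := hL.trans (mul_le_mul_of_nonneg_right hz hΛ)
  have hFF : F ≤ F ^ 2 := by nlinarith
  have hFFF : F ^ 2 ≤ F ^ 3 := by nlinarith
  have hGF : G * F ≤ 1 / 1000 * F ^ 2 := by nlinarith
  have hGG : G ^ 2 ≤ 1 / 1000 * F ^ 2 := by nlinarith
  refine ⟨?_, ?_, ?_⟩
  · have e1 : z ^ 2 * (2 * F * L0) ≤ 1 / 25 * (2 * F * (1 / 5 * Λ)) := by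
      apply mul_le_mul
      · nlinarith
      · exact mul_le_mul_of_nonneg_left hL5 (by positivity)
      · positivity
      · norm_num
    have e2 : G * Λ ≤ 1 / 1000 * F * Λ := mul_le_mul_of_nonneg_right (by linarith) hΛ
    have e3 : 0 ≤ F * Λ := by positivity
    nlinarith
  · have e1 : z * (2 * F ^ 2 * L0 + G * (2 * F * L0)) ≤ 1 / 5 * ((2 * F ^ 2 + G * (2 * F)) * (1 / 5 * Λ)) := by
      apply mul_le_mul hz _ (by positivity) (by norm_num)
      have : 2 * F ^ 2 * L0 + G * (2 * F * L0) = (2 * F ^ 2 + G * (2 * F)) * L0 := by ring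
      rw [this]
      exact mul_le_mul_of_nonneg_left hL5 (by positivity)
    have e2 : 1 / 25 * (2 * F ^ 2 + G * (2 * F)) + G ^ 2 ≤ 1 / 2 * F ^ 2 := by nlinarith
    have e3 := mul_le_mul_of_nonneg_right e2 hΛ
    nlinarith
  · have e1 : 2 * F ^ 3 * L0 + G * (2 * F * L0) ≤ (2 * F ^ 3 + G * (2 * F)) * (1 / 5 * Λ) := by
      have : 2 * F ^ 3 * L0 + G * (2 * F * L0) = (2 * F ^ 3 + G * (2 * F)) * L0 := by ring
      rw [this]
      exact mul_le_mul_of_nonneg_left hL5 (by positivity)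
    have e2 : 1 / 5 * (2 * F ^ 3 + G * (2 * F)) + G ^ 2 ≤ 1 / 2 * F ^ 3 := by nlinarith
    have e3 := mul_le_mul_of_nonneg_right e2 hΛ
    nlinarith

/-- Row LGF. -/
theorem LGF_proof (hLSL : LSL_stmt) (hLTW : LTW_stmt) (hLDR : LDR_stmt) : LGF_stmt := by
  intro k C F D hK hF E γ x b c ℓ hE hR
  have hC1 := hK.c1
  have hC0 : 0 < C := by linarith
  obtain ⟨G, hGd, hGG, hG4, hG2, hG1000, hGF⟩ := LGF_num C F hC1 hF
  have hG0 : 0 < G := by linarith
  have hF1000 : 1000 * G ≤ F := by nlinarith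
  have hF0 : 0 < F := by linarith
  have hF1 : 1 ≤ F := by linarith
  have hF4 : F ≤ F ^ 4 := by
    have h1 : F ^ 1 ≤ F ^ 4 := pow_le_pow_right₀ hF1 (by norm_num)
    linarith [h1, pow_one F]
  obtain ⟨X, Y, Z, h0, hV, hCv⟩ := hK.vs E γ x b c hE hR.toCN.toCv
  -- the three functions
  obtain ⟨J, hJ⟩ : ∃ J : ℝ → ℝ → ℝ, ∀ t v, J t v = Jc D.U E (D.fl E t (γ v)) (Y t v) (Z t v) := ⟨fun t v => _, fun _ _ => rfl⟩
  obtain ⟨W, hW⟩ : ∃ W : ℝ → ℝ → ℝ, ∀ t v, W t v = Wc D.U E (D.fl E t (γ v)) (X t v) (Y t v) (Z t v) := ⟨fun t v => _, fun _ _ => rfl⟩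
  obtain ⟨S, hS⟩ : ∃ S : ℝ → ℝ → ℝ, ∀ t v, S t v = Sc D.U E (D.fl E t (γ v)) (X t v) := ⟨fun t v => _, fun _ _ => rfl⟩
  have hJ0 : ∀ v, J 0 v = Jc D.U E (γ v) (b v) (c v) := fun v => by rw [hJ, hK.zero, (h0 v).2.1, (h0 v).2.2]
  have hW0 : ∀ v, W 0 v = Wc D.U E (γ v) (x v) (b v) (c v) := fun v => by rw [hW, hK.zero, (h0 v).1, (h0 v).2.1, (h0 v).2.2]
  have hS0 : ∀ v, S 0 v = Sc D.U E (γ v) (x v) := fun v => by rw [hS, hK.zero, (h0 v).1]
  have hlip : ∀ (φ : SL(2, ℝ) → ℝ), (∀ g y : SL(2, ℝ), nm y ≤ 1 / 10 → |φ (g * y) - φ g| ≤ C * (nm y + |E - E|)) → Continuous φ := by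
    intro φ h
    refine LGF_cont φ C fun g y hy => ?_
    have h1 := h g y hy
    rwa [sub_self, abs_zero, add_zero] at h1
  have cro : Continuous (fun g => rho D.U E g) := hlip _ fun g y hy => (hK.li E E g y hE hE hy).1
  have cfa : Continuous (fun g => fa D.U E g) := hlip _ fun g y hy => (hK.li E E g y hE hE hy).2.2.2.1
  have cfq : Continuous (fun g => fq D.U E g) := hlip _ fun g y hy => (hK.li E E g y hE hE hy).2.2.2.2.1
  have cfp : Continuous (fun g => fp D.U E g) := hlip _ fun g y hy => (hK.li E E g y hE hE hy).2.2.2.2.2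
  have cflow : ∀ g : SL(2, ℝ), Continuous fun t : ℝ => D.fl E t g := by
    intro g
    exact hK.cont.comp_continuous (f := fun t : ℝ => ((E, t, g) : ℝ × ℝ × SL(2, ℝ))) (by fun_prop) (fun t => hE)
  have hder : ∀ v t, HasDerivAt (fun s => J s v) (fa D.U E (D.fl E t (γ v)) * W t v) t ∧ HasDerivAt (fun s => W s v) (fq D.U E (D.fl E t (γ v)) * J t v) t ∧
      HasDerivAt (fun s => S s v) (fp D.U E (D.fl E t (γ v)) * J t v) t := by
    intro v t
    have h1 := hK.jac E (γ v) (fun t => X t v) (fun t => Y t v) (fun t => Z t v) hE (hV v) t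
    have eJ : (fun s => J s v) = fun s => Jc D.U E (D.fl E s (γ v)) (Y s v) (Z s v) := funext fun s => hJ s v
    have eW : (fun s => W s v) = fun s => Wc D.U E (D.fl E s (γ v)) (X s v) (Y s v) (Z s v) := funext fun s => hW s v
    have eS : (fun s => S s v) = fun s => Sc D.U E (D.fl E s (γ v)) (X s v) := funext fun s => hS s v
    rw [eJ, eW, eS, hJ, hW]
    exact h1
  have hbd : ∀ v t, 1 / C ≤ fa D.U E (D.fl E t (γ v)) ∧ fa D.U E (D.fl E t (γ v)) ≤ C ∧ 1 / C ≤ fq D.U E (D.fl E t (γ v)) ∧ fq D.U E (D.fl E t (γ v)) ≤ C ∧ |fp D.U E (D.fl E t (γ v))| ≤ C := by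
    intro v t
    have h1 := hK.ro E (D.fl E t (γ v)) hE
    have h2 := hK.ka E (D.fl E t (γ v)) hE
    exact ⟨h1.2.2.1, h1.2.2.2.1, h1.2.2.2.2.1, h1.2.2.2.2.2, h2.2.2⟩
  have hL1 := fun v => hLSL C (fun t => fa D.U E (D.fl E t (γ v))) (fun t => fq D.U E (D.fl E t (γ v))) (fun t => fp D.U E (D.fl E t (γ v)))
    (fun t => J t v) (fun t => W t v) (fun t => S t v) hC1 (cfa.comp (cflow _)) (cfq.comp (cflow _)) (cfp.comp (cflow _)) (fun t _ => hbd v t) (hder v)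
    (by show 0 < J 0 v; rw [hJ0]; exact hR.pos v)
    (by
      show J 0 v ≤ 3 * C * W 0 v
      rw [hJ0, hW0]
      have h1 := hR.cl v
      norm_num at h1
      exact h1)
    (by
      show W 0 v ≤ 3 * C * J 0 v
      rw [hJ0, hW0]
      have h1 := hR.cu v
      norm_num at h1
      exact h1)
    (by
      show |S 0 v| ≤ 18 * C ^ 3 * J 0 v
      rw [hJ0, hS0]
      refine (hR.cs v).trans (le_of_eq ?_)
      ring)
  have hpos : ∀ t, 0 ≤ t → ∀ v, 0 < J t v := fun t ht v => (hL1 v t ht).1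
  -- continuity in `v`
  have cJ : ∀ t, Continuous (J t) := by
    intro t
    have h1 : J t = fun v => -(rho D.U E (D.fl E t (γ v)) * (Y t v + Z t v)) := funext fun v => hJ t v
    rw [h1]
    have h2 : Continuous fun v => D.fl E t (γ v) := LGF_cv (hCv t)
    exact ((cro.comp h2).mul ((hCv t).cb.add (hCv t).cc)).neg
  obtain ⟨L, hL⟩ : ∃ L : ℝ → ℝ → ℝ, ∀ t v, L t v = ∫ u in (0 : ℝ)..v, J t u := ⟨fun t v => ∫ u in (0 : ℝ)..v, J t u, fun _ _ => rfl⟩
  have hLd : ∀ t v, HasDerivAt (L t) (J t v) v := by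
    intro t v
    have h1 : L t = fun v => ∫ u in (0 : ℝ)..v, J t u := funext (hL t)
    rw [h1]
    exact intervalIntegral.integral_hasDerivAt_right ((cJ t).intervalIntegrable _ _) ((cJ t).stronglyMeasurableAtFilter _ _) (cJ t).continuousAt
  have hLs : ∀ t v v', L t v' - L t v = ∫ u in v..v', J t u := by
    intro t v v'
    rw [hL, hL, intervalIntegral.integral_interval_sub_left ((cJ t).intervalIntegrable _ _) ((cJ t).intervalIntegrable _ _)]
  have hCN : ∀ t, 0 ≤ t → CN C 2 D E (fun v => D.fl E t (γ v)) (X t) (Y t) (Z t) (L t) := by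
    intro t ht
    refine ⟨hCv t, fun v => ?_, fun v => ?_, fun v => ?_, fun v => ?_, fun v => ?_⟩
    · rw [← hJ]
      exact hpos t ht v
    · rw [← hJ]
      exact hLd t v
    · rw [← hJ, ← hW]
      refine (hL1 v t ht).2.1.trans (le_of_eq ?_)
      ring
    · rw [← hJ, ← hW]
      refine (hL1 v t ht).2.2.1.trans (le_of_eq ?_)
      ring
    · rw [← hJ, ← hS]
      refine (hL1 v t ht).2.2.2.1.trans (le_of_eq ?_)
      ring
  have hL0 : ∀ v v', L 0 v' - L 0 v = ℓ v' - ℓ v := by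
    intro v v'
    rw [hLs]
    have h1 : ∀ u ∈ uIcc v v', HasDerivAt ℓ (J 0 u) u := fun u _ => by
      rw [hJ0]
      exact hR.dl u
    exact intervalIntegral.integral_eq_sub_of_hasDerivAt h1 ((cJ 0).intervalIntegrable _ _)
  have hgr : ∀ s t v v' : ℝ, 0 ≤ s → s ≤ t → v ≤ v' → Real.exp ((t - s) / (3 * C ^ 2)) * (L s v' - L s v) ≤ L t v' - L t v ∧
      L t v' - L t v ≤ Real.exp (3 * C ^ 2 * (t - s)) * (L s v' - L s v) := by
    intro s t v v' hs hst hvv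
    rw [hLs, hLs]
    constructor
    · rw [← intervalIntegral.integral_const_mul]
      refine intervalIntegral.integral_mono_on hvv (((cJ s).const_mul _).intervalIntegrable _ _) ((cJ t).intervalIntegrable _ _) fun u _ => ?_
      exact ((hL1 u t (hs.trans hst)).2.2.2.2.1 s hs hst).1
    · rw [← intervalIntegral.integral_const_mul]
      refine intervalIntegral.integral_mono_on hvv ((cJ t).intervalIntegrable _ _) (((cJ s).const_mul _).intervalIntegrable _ _) fun u _ => ?_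
      exact ((hL1 u t (hs.trans hst)).2.2.2.2.1 s hs hst).2
  have hLnn : ∀ t, 0 ≤ t → ∀ v v', v ≤ v' → 0 ≤ L t v' - L t v := by
    intro t ht v v' hvv
    rw [hLs]
    exact intervalIntegral.integral_nonneg hvv fun u _ => (hpos t ht u).le
  have hexp : ∀ s t v v' : ℝ, 0 ≤ s → s ≤ t → v ≤ v' → L s v' - L s v ≤ Real.exp (-((t - s) / (3 * C ^ 2))) * (L t v' - L t v) := by
    intro s t v v' hs hst hvv
    have h1 := (hgr s t v v' hs hst hvv).1
    rw [Real.exp_neg, ← div_eq_inv_mul, le_div_iff₀ (Real.exp_pos _)]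
    linarith
  -- the comparison of two orbits
  have hcore : ∀ t v v' : ℝ, 0 ≤ t → v ≤ v' → 2 * (ℓ v' - ℓ v) ≤ 1 / F ^ 4 → L t v' - L t v ≤ 2 * (1 / F ^ 4) →
      |W t v / J t v - W t v' / J t v'| ≤ Real.exp (-(2 * t / (3 * C ^ 2))) * (2 * F * (ℓ v' - ℓ v)) + G * (L t v' - L t v) ∧
      |S t v / J t v - S t v' / J t v'| ≤ Real.exp (-(t / (3 * C ^ 2))) * (2 * F ^ 2 * (ℓ v' - ℓ v) + G * (2 * F * (ℓ v' - ℓ v))) + G ^ 2 * (L t v' - L t v) ∧
      |Real.log (J t v') - Real.log (J t v)| ≤ 2 * F ^ 3 * (ℓ v' - ℓ v) + G * (2 * F * (ℓ v' - ℓ v)) + G ^ 2 * (L t v' - L t v) := by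
    intro t v v' ht hvv h1 h2
    have hΛ := hLnn t ht v v' hvv
    have hinv : 1 / F ^ 4 ≤ 1 / F := one_div_le_one_div_of_le hF0 hF4
    have hinvG : 1 / F ≤ 1 / (1000 * G) := one_div_le_one_div_of_le (by positivity) hF1000
    have hsmall : L t v' - L t v ≤ 1 / (500 * G) := by
      have h3 : 2 * (1 / (1000 * G)) = 1 / (500 * G) := by field_simp; norm_num
      linarith
    have hs1 : 1 / (500 * G) ≤ 1 / G := one_div_le_one_div_of_le hG0 (by linarith)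
    have hs2 : 100 * C ^ 4 * (1 / (500 * G)) ≤ 1 / 10 := by
      rw [mul_one_div, div_le_iff₀ (by positivity)]
      linarith
    have hstep : ∀ s : ℝ, 0 ≤ s → s ≤ t → nm ((D.fl E s (γ v))⁻¹ * D.fl E s (γ v')) ≤ 100 * C ^ 4 * (L t v' - L t v) * Real.exp (-((t - s) / (3 * C ^ 2))) ∧
        nm ((D.fl E s (γ v))⁻¹ * D.fl E s (γ v')) ≤ 1 / 10 := by
      intro s hs hst
      have h3 := hexp s t v v' hs hst hvv
      have h4 : Real.exp (-((t - s) / (3 * C ^ 2))) ≤ 1 := by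
        apply Real.exp_le_one_iff.2
        have : 0 ≤ (t - s) / (3 * C ^ 2) := div_nonneg (by linarith) (by positivity)
        linarith
      have h5 : L s v' - L s v ≤ L t v' - L t v := by nlinarith
      have h6 : L s v' - L s v ≤ 1 / (10 * C) ^ 20 := by
        rw [← hGd]
        linarith
      have h7 := (hLDR k C D hK E (fun v => D.fl E s (γ v)) (X s) (Y s) (Z s) (L s) hE (hCN s hs) v v' hvv h6 _ rfl).1
      have h8 : (0 : ℝ) ≤ 100 * C ^ 4 := by positivity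
      refine ⟨h7.trans ?_, h7.trans ?_⟩
      · calc 100 * C ^ 4 * (L s v' - L s v) ≤ 100 * C ^ 4 * (Real.exp (-((t - s) / (3 * C ^ 2))) * (L t v' - L t v)) := mul_le_mul_of_nonneg_left h3 h8
          _ = _ := by ring
      · exact (mul_le_mul_of_nonneg_left (h5.trans hsmall) h8).trans hs2
    have hli : ∀ (φ : SL(2, ℝ) → ℝ), (∀ g y : SL(2, ℝ), nm y ≤ 1 / 10 → |φ (g * y) - φ g| ≤ C * (nm y + |E - E|)) → ∀ s : ℝ, 0 ≤ s → s ≤ t →
        |φ (D.fl E s (γ v)) - φ (D.fl E s (γ v'))| ≤ 100 * C ^ 5 * (L t v' - L t v) * Real.exp (-((t - s) / (3 * C ^ 2))) := by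
      intro φ hφ s hs hst
      obtain ⟨h3, h4⟩ := hstep s hs hst
      have h5 := hφ (D.fl E s (γ v)) _ h4
      rw [mul_inv_cancel_left, sub_self, abs_zero, add_zero, abs_sub_comm] at h5
      refine h5.trans ?_
      calc C * nm ((D.fl E s (γ v))⁻¹ * D.fl E s (γ v')) ≤ C * (100 * C ^ 4 * (L t v' - L t v) * Real.exp (-((t - s) / (3 * C ^ 2)))) :=
            mul_le_mul_of_nonneg_left h3 hC0.le
        _ = _ := by ring
    have hmain := hLTW C t (L t v' - L t v) (2 * F * (ℓ v' - ℓ v)) (2 * F ^ 2 * (ℓ v' - ℓ v)) (2 * F ^ 3 * (ℓ v' - ℓ v))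
      (fun t => fa D.U E (D.fl E t (γ v))) (fun t => fq D.U E (D.fl E t (γ v))) (fun t => fp D.U E (D.fl E t (γ v))) (fun t => J t v) (fun t => W t v) (fun t => S t v)
      (fun t => fa D.U E (D.fl E t (γ v'))) (fun t => fq D.U E (D.fl E t (γ v'))) (fun t => fp D.U E (D.fl E t (γ v'))) (fun t => J t v') (fun t => W t v') (fun t => S t v')
      hC1 ht hΛ (cfa.comp (cflow _)) (cfq.comp (cflow _)) (cfp.comp (cflow _)) (cfa.comp (cflow _)) (cfq.comp (cflow _)) (cfp.comp (cflow _))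
      (by
        intro s hs hst
        have h3 := hbd v s
        have h4 := hbd v' s
        exact ⟨h3.1, h3.2.1, h3.2.2.2.2, h4.1, h4.2.1, h4.2.2.2.2,
          hli (fun g => fa D.U E g) (fun g y hy => (hK.li E E g y hE hE hy).2.2.2.1) s hs hst,
          hli (fun g => fq D.U E g) (fun g y hy => (hK.li E E g y hE hE hy).2.2.2.2.1) s hs hst,
          hli (fun g => fp D.U E g) (fun g y hy => (hK.li E E g y hE hE hy).2.2.2.2.2) s hs hst⟩)
      (fun s => ⟨(hder v s).1, (hder v s).2.1, (hder v s).2.2, (hder v' s).1, (hder v' s).2.1, (hder v' s).2.2⟩)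
      (fun s hs _ => ⟨(hL1 v s hs).1, (hL1 v s hs).2.1, (hL1 v s hs).2.2.1, (hL1 v s hs).2.2.2.1,
        (hL1 v' s hs).1, (hL1 v' s hs).2.1, (hL1 v' s hs).2.2.1, (hL1 v' s hs).2.2.2.1⟩)
      (by
        show |W 0 v / J 0 v - W 0 v' / J 0 v'| ≤ _
        rw [hW0, hJ0, hW0, hJ0]
        exact hR.su v v' hvv h1)
      (by
        show |S 0 v / J 0 v - S 0 v' / J 0 v'| ≤ _
        rw [hS0, hJ0, hS0, hJ0]
        exact hR.ss v v' hvv h1)
      (by
        show |Real.log (J 0 v') - Real.log (J 0 v)| ≤ _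
        rw [hJ0, hJ0]
        exact hR.di v v' hvv h1)
    rw [hGG, ← hGd] at hmain
    exact hmain
  refine ⟨X, Y, Z, L, h0, hV, hCN, hL0, hgr, fun t ht => ?_, fun t ht => ?_⟩
  · have ht0 : 0 ≤ t := by linarith
    obtain ⟨z, hz⟩ : ∃ z : ℝ, z = Real.exp (-(t / (3 * C ^ 2))) := ⟨_, rfl⟩
    have hz0 : 0 ≤ z := by rw [hz]; exact (Real.exp_pos _).le
    have hz2 : Real.exp (-(2 * t / (3 * C ^ 2))) = z ^ 2 := by
      rw [hz, ← Real.exp_nat_mul]
      congr 1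
      push_cast
      ring
    have hC2 : 1 ≤ C ^ 2 := by nlinarith
    have hz1 : z ≤ 1 - 1 / (4 * C ^ 2) := by
      have h1 : z ≤ Real.exp (-(1 / (3 * C ^ 2))) := by
        rw [hz]
        apply Real.exp_le_exp.2
        have : 1 / (3 * C ^ 2) ≤ t / (3 * C ^ 2) := div_le_div_of_nonneg_right ht (by positivity)
        linarith
      have h2 : Real.exp (-(1 / (3 * C ^ 2))) ≤ 1 / (1 + 1 / (3 * C ^ 2)) := by
        rw [Real.exp_neg, ← one_div]
        apply one_div_le_one_div_of_le (by positivity)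
        have := Real.add_one_le_exp (1 / (3 * C ^ 2))
        linarith
      have h3 : 1 / (1 + 1 / (3 * C ^ 2)) ≤ 1 - 1 / (4 * C ^ 2) := by
        rw [div_le_iff₀ (by positivity)]
        have h4 : (1 - 1 / (4 * C ^ 2)) * (1 + 1 / (3 * C ^ 2)) = 1 + (C ^ 2 - 1) / (12 * C ^ 4) := by
          field_simp
          ring
        rw [h4]
        have h5 : 0 ≤ (C ^ 2 - 1) / (12 * C ^ 4) := div_nonneg (by linarith) (by positivity)
        linarith
      linarith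
    have key : ∀ v v' : ℝ, v ≤ v' → 2 * (L t v' - L t v) ≤ 1 / F ^ 4 →
        0 ≤ L t v' - L t v ∧ 0 ≤ ℓ v' - ℓ v ∧ ℓ v' - ℓ v ≤ z * (L t v' - L t v) ∧ 2 * (ℓ v' - ℓ v) ≤ 1 / F ^ 4 ∧ L t v' - L t v ≤ 2 * (1 / F ^ 4) := by
      intro v v' hvv h1
      have h2 := hexp 0 t v v' le_rfl ht0 hvv
      rw [hL0, sub_zero, ← hz] at h2
      have h3 : 0 ≤ ℓ v' - ℓ v := by
        rw [← hL0]
        exact hLnn 0 le_rfl v v' hvv
      have h4 := hLnn t ht0 v v' hvv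
      have h5 : z ≤ 1 := by
        have : 0 < 1 / (4 * C ^ 2) := by positivity
        linarith
      have h6 : z * (L t v' - L t v) ≤ L t v' - L t v := by nlinarith
      exact ⟨h4, h3, h2, by linarith, by linarith⟩
    refine ⟨hCN t ht0, fun v v' hvv h1 => ?_, fun v v' hvv h1 => ?_, fun v v' hvv h1 => ?_⟩
    · obtain ⟨k1, k2, k3, k4, k5⟩ := key v v' hvv h1
      have h6 := (hcore t v v' ht0 hvv k4 k5).1
      rw [hz2] at h6
      show |Wc D.U E (D.fl E t (γ v)) (X t v) (Y t v) (Z t v) / Jc D.U E (D.fl E t (γ v)) (Y t v) (Z t v) -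
        Wc D.U E (D.fl E t (γ v')) (X t v') (Y t v') (Z t v') / Jc D.U E (D.fl E t (γ v')) (Y t v') (Z t v')| ≤ 2 * F * (L t v' - L t v)
      rw [← hJ, ← hJ, ← hW, ← hW]
      exact h6.trans (LGF_n1 C F G z _ _ hC1 hG2 hGF hG1000 hz0 hz1 k1 k3 k2).1
    · obtain ⟨k1, k2, k3, k4, k5⟩ := key v v' hvv h1
      have h6 := (hcore t v v' ht0 hvv k4 k5).2.1
      rw [← hz] at h6
      show |Sc D.U E (D.fl E t (γ v)) (X t v) / Jc D.U E (D.fl E t (γ v)) (Y t v) (Z t v) -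
        Sc D.U E (D.fl E t (γ v')) (X t v') / Jc D.U E (D.fl E t (γ v')) (Y t v') (Z t v')| ≤ 2 * F ^ 2 * (L t v' - L t v)
      rw [← hJ, ← hJ, ← hS, ← hS]
      exact h6.trans (LGF_n1 C F G z _ _ hC1 hG2 hGF hG1000 hz0 hz1 k1 k3 k2).2.1
    · obtain ⟨k1, k2, k3, k4, k5⟩ := key v v' hvv h1
      have h6 := (hcore t v v' ht0 hvv k4 k5).2.2
      show |Real.log (Jc D.U E (D.fl E t (γ v')) (Y t v') (Z t v')) - Real.log (Jc D.U E (D.fl E t (γ v)) (Y t v) (Z t v))| ≤ 2 * F ^ 3 * (L t v' - L t v)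
      rw [← hJ, ← hJ]
      exact h6.trans (LGF_n1 C F G z _ _ hC1 hG2 hGF hG1000 hz0 hz1 k1 k3 k2).2.2
  · have hC2 : 1 ≤ C ^ 2 := by nlinarith
    have ht0 : 0 ≤ t := by linarith
    have ht3 : 3 * C ^ 2 ≤ t := by linarith
    obtain ⟨z, hz⟩ : ∃ z : ℝ, z = Real.exp (-(t / (3 * C ^ 2))) := ⟨_, rfl⟩
    have hz0 : 0 ≤ z := by rw [hz]; exact (Real.exp_pos _).le
    have hz2 : Real.exp (-(2 * t / (3 * C ^ 2))) = z ^ 2 := by
      rw [hz, ← Real.exp_nat_mul]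
      congr 1
      push_cast
      ring
    have hz1 : z ≤ 1 / 5 := by
      have h1 : 2 ≤ t / (3 * C ^ 2) := by
        rw [le_div_iff₀ (by positivity)]
        linarith
      have h2 : z ≤ Real.exp (-2) := by
        rw [hz]
        exact Real.exp_le_exp.2 (by linarith)
      have h3 := Real.quadratic_le_exp_of_nonneg (by norm_num : (0 : ℝ) ≤ 2)
      have h4 : Real.exp (-2) ≤ 1 / 5 := by
        rw [Real.exp_neg, inv_le_comm₀ (Real.exp_pos _) (by norm_num)]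
        norm_num at h3 ⊢
        linarith
      linarith
    have hcc : CN C (1 / 2) D E (fun v => D.fl E t (γ v)) (X t) (Y t) (Z t) (L t) := by
      refine ⟨hCv t, (hCN t ht0).pos, (hCN t ht0).dl, fun v => ?_, fun v => ?_, fun v => ?_⟩
      · rw [← hJ, ← hW]
        refine ((hL1 v t ht0).2.2.2.2.2 ht3).1.trans (le_of_eq ?_)
        ring
      · rw [← hJ, ← hW]
        refine ((hL1 v t ht0).2.2.2.2.2 ht3).2.1.trans (le_of_eq ?_)
        ring
      · rw [← hJ, ← hS]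
        refine ((hL1 v t ht0).2.2.2.2.2 ht3).2.2.trans (le_of_eq ?_)
        ring
    have key : ∀ v v' : ℝ, v ≤ v' → 1 / 2 * (L t v' - L t v) ≤ 1 / F ^ 4 →
        0 ≤ L t v' - L t v ∧ 0 ≤ ℓ v' - ℓ v ∧ ℓ v' - ℓ v ≤ z * (L t v' - L t v) ∧ 2 * (ℓ v' - ℓ v) ≤ 1 / F ^ 4 ∧ L t v' - L t v ≤ 2 * (1 / F ^ 4) := by
      intro v v' hvv h1
      have h2 := hexp 0 t v v' le_rfl ht0 hvv
      rw [hL0, sub_zero, ← hz] at h2
      have h3 : 0 ≤ ℓ v' - ℓ v := by
        rw [← hL0]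
        exact hLnn 0 le_rfl v v' hvv
      have h4 := hLnn t ht0 v v' hvv
      have h6 : z * (L t v' - L t v) ≤ 1 / 5 * (L t v' - L t v) := mul_le_mul_of_nonneg_right hz1 h4
      exact ⟨h4, h3, h2, by linarith, by linarith⟩
    refine ⟨hcc, fun v v' hvv h1 => ?_, fun v v' hvv h1 => ?_, fun v v' hvv h1 => ?_⟩
    · obtain ⟨k1, k2, k3, k4, k5⟩ := key v v' hvv h1
      have h6 := (hcore t v v' ht0 hvv k4 k5).1
      rw [hz2] at h6
      show |Wc D.U E (D.fl E t (γ v)) (X t v) (Y t v) (Z t v) / Jc D.U E (D.fl E t (γ v)) (Y t v) (Z t v) -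
        Wc D.U E (D.fl E t (γ v')) (X t v') (Y t v') (Z t v') / Jc D.U E (D.fl E t (γ v')) (Y t v') (Z t v')| ≤ 1 / 2 * F * (L t v' - L t v)
      rw [← hJ, ← hJ, ← hW, ← hW]
      exact h6.trans (LGF_n2 F G z _ _ hGF hG1000 hz0 hz1 k1 k3 k2).1
    · obtain ⟨k1, k2, k3, k4, k5⟩ := key v v' hvv h1
      have h6 := (hcore t v v' ht0 hvv k4 k5).2.1
      rw [← hz] at h6
      show |Sc D.U E (D.fl E t (γ v)) (X t v) / Jc D.U E (D.fl E t (γ v)) (Y t v) (Z t v) -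
        Sc D.U E (D.fl E t (γ v')) (X t v') / Jc D.U E (D.fl E t (γ v')) (Y t v') (Z t v')| ≤ 1 / 2 * F ^ 2 * (L t v' - L t v)
      rw [← hJ, ← hJ, ← hS, ← hS]
      exact h6.trans (LGF_n2 F G z _ _ hGF hG1000 hz0 hz1 k1 k3 k2).2.1
    · obtain ⟨k1, k2, k3, k4, k5⟩ := key v v' hvv h1
      have h6 := (hcore t v v' ht0 hvv k4 k5).2.2
      show |Real.log (Jc D.U E (D.fl E t (γ v')) (Y t v') (Z t v')) - Real.log (Jc D.U E (D.fl E t (γ v)) (Y t v) (Z t v))| ≤ 1 / 2 * F ^ 3 * (L t v' - L t v)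
      rw [← hJ, ← hJ]
      exact h6.trans (LGF_n2 F G z _ _ hGF hG1000 hz0 hz1 k1 k3 k2).2.2

end

end Pool.Agent.VN
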