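import Pool.Agent.helper93.VN.SpecL
import Pool.Agent.helper62.RS.All

/-!
# Row vn:LMS (MP_07c750_an): measurability
-/

set_option autoImplicit false

open scoped MatrixGroups ContDiff Topology UpperHalfPlane ComplexConjugate ENNReal
open UpperHalfPlane MeasureTheory Filter Set

namespace Pool.Agent.VN

open Pool.Agent.RS Pool.Agent.VQ
open Pool.Agent.RPQ (mean)
open Pool.Agent.VQE (nm)

noncomputable section

theorem LMS_Phi {Γ : Subgroup SL(2, ℝ)} {k : ℝ} {B : ℕ → ℝ} {D : Dyn} (hD : OKN Γ k B D) (t : ℝ) :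
    Measurable (fun q : (SL(2, ℝ) × ℝ) × (ℝ × ℝ × ℝ × ℝ) => PhiN D t q.1 q.2) := by
  obtain ⟨_, h2, _, ha, hn, hl, hk, _⟩ := A_GLC
  have hSC : SecondCountableTopology SL(2, ℝ) := h2
  have hm1 : Measurable (fun q : (SL(2, ℝ) × ℝ) × (ℝ × ℝ × ℝ × ℝ) => D.fl q.1.2 (t + q.2.2.1) (q.1.1 * kM q.2.1)) := by
    have hS : MeasurableSet {q : (SL(2, ℝ) × ℝ) × (ℝ × ℝ × ℝ × ℝ) | |q.1.2| ≤ k} := by
      apply IsClosed.measurableSet
      exact isClosed_le (by fun_prop) continuous_const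
    have hc0 : Continuous (fun q : (SL(2, ℝ) × ℝ) × (ℝ × ℝ × ℝ × ℝ) => q.1.1 * kM q.2.1) :=
      (continuous_fst.comp continuous_fst).mul (hk.comp (continuous_fst.comp continuous_snd))
    have hc1 : Continuous (fun q : (SL(2, ℝ) × ℝ) × (ℝ × ℝ × ℝ × ℝ) => t + q.2.2.1) := by fun_prop
    refine measurable_of_restrict_of_restrict_compl hS ?_ ?_
    · have hc : ContinuousOn (fun q : (SL(2, ℝ) × ℝ) × (ℝ × ℝ × ℝ × ℝ) => D.fl q.1.2 (t + q.2.2.1) (q.1.1 * kM q.2.1))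
          {q : (SL(2, ℝ) × ℝ) × (ℝ × ℝ × ℝ × ℝ) | |q.1.2| ≤ k} := by
        have h3 := hD.cfl.comp (f := fun q : (SL(2, ℝ) × ℝ) × (ℝ × ℝ × ℝ × ℝ) => ((q.1.2, t + q.2.2.1, q.1.1 * kM q.2.1) : ℝ × ℝ × SL(2, ℝ)))
          (s := {q | |q.1.2| ≤ k}) (Continuous.continuousOn ((continuous_snd.comp continuous_fst).prodMk (hc1.prodMk hc0)))
          (fun q hq => hq)
        exact h3
      exact (continuousOn_iff_continuous_domRestrict.1 hc).measurable
    · have h3 : ({q : (SL(2, ℝ) × ℝ) × (ℝ × ℝ × ℝ × ℝ) | |q.1.2| ≤ k}ᶜ).domRestrict (fun q => D.fl q.1.2 (t + q.2.2.1) (q.1.1 * kM q.2.1)) =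
          ({q : (SL(2, ℝ) × ℝ) × (ℝ × ℝ × ℝ × ℝ) | |q.1.2| ≤ k}ᶜ).domRestrict (fun q => q.1.1 * kM q.2.1) := by
        funext q
        have h4 : k < |q.1.1.2| := not_le.1 q.2
        exact (hD.out q.1.1.2 (t + q.1.2.2.1) (q.1.1.1 * kM q.1.2.1) h4).1
      rw [h3]
      exact (hc0.comp continuous_subtype_val).measurable
  have hm3 : Measurable (fun q : (SL(2, ℝ) × ℝ) × (ℝ × ℝ × ℝ × ℝ) => kM q.2.2.2.1) :=
    (hk.comp (continuous_fst.comp (continuous_snd.comp (continuous_snd.comp continuous_snd)))).measurable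
  have hm4 : Measurable (fun q : (SL(2, ℝ) × ℝ) × (ℝ × ℝ × ℝ × ℝ) => q.1.2 + q.2.2.2.2) := by fun_prop
  exact (hm1.mul hm3).prodMk hm4

/-- joint measurability of a continuous function along the flow -/
theorem LMS_meas (Γ : Subgroup SL(2, ℝ)) (k : ℝ) (B : ℕ → ℝ) (D : Dyn) (hD : OKN Γ k B D) (h : ℍ → ℝ) (hh : Continuous h) :
    Measurable (fun q : (SL(2, ℝ) × ℝ) × ℝ => h (D.fl q.1.2 q.2 q.1.1 • I)) := by
  classical
  have hsmul : Continuous (fun g : SL(2, ℝ) => g • (I : ℍ)) := continuous_id.smul continuous_const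
  set S : Set ((SL(2, ℝ) × ℝ) × ℝ) := {q | |q.1.2| ≤ k} with hS
  have hSc : IsClosed S := isClosed_le (by fun_prop) continuous_const
  have h1 : ContinuousOn (fun q : (SL(2, ℝ) × ℝ) × ℝ => h (D.fl q.1.2 q.2 q.1.1 • I)) S := by
    have h2 : ContinuousOn (fun q : (SL(2, ℝ) × ℝ) × ℝ => D.fl q.1.2 q.2 q.1.1) S := by
      have h3 : Continuous (fun q : (SL(2, ℝ) × ℝ) × ℝ => ((q.1.2, q.2, q.1.1) : ℝ × ℝ × SL(2, ℝ))) := by fun_prop
      exact hD.cfl.comp h3.continuousOn (fun q hq => hq)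
    exact (hh.comp hsmul).comp_continuousOn h2
  have h4 : ContinuousOn (fun q : (SL(2, ℝ) × ℝ) × ℝ => h (q.1.1 • I)) Sᶜ :=
    ((hh.comp hsmul).comp (continuous_fst.comp continuous_fst)).continuousOn
  have h5 := h1.measurable_piecewise h4 hSc.measurableSet
  have h6 : (fun q : (SL(2, ℝ) × ℝ) × ℝ => h (D.fl q.1.2 q.2 q.1.1 • I)) =
      S.piecewise (fun q : (SL(2, ℝ) × ℝ) × ℝ => h (D.fl q.1.2 q.2 q.1.1 • I)) (fun q : (SL(2, ℝ) × ℝ) × ℝ => h (q.1.1 • I)) := by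
    funext q
    by_cases hq : q ∈ S
    · rw [Set.piecewise_eq_of_mem _ _ _ hq]
    · rw [Set.piecewise_eq_of_notMem _ _ _ hq]
      have hq' : k < |q.1.2| := lt_of_not_ge hq
      rw [(hD.out q.1.2 q.2 q.1.1 hq').1]
  rw [h6]
  exact h5

theorem LMS_int (G : (SL(2, ℝ) × ℝ) × ℝ → ℝ) (hG : Measurable G) (t : ℝ) :
    Measurable (fun p : SL(2, ℝ) × ℝ => ∫ s in (0 : ℝ)..t, G (p, s)) := by
  have hG' : StronglyMeasurable (fun q : (SL(2, ℝ) × ℝ) × ℝ => G (q.1, q.2)) := hG.stronglyMeasurable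
  have h1 : StronglyMeasurable (fun p : SL(2, ℝ) × ℝ => ∫ s in Ioc 0 t, G (p, s)) :=
    hG'.integral_prod_right' (ν := volume.restrict (Ioc 0 t))
  have h2 : StronglyMeasurable (fun p : SL(2, ℝ) × ℝ => ∫ s in Ioc t 0, G (p, s)) :=
    hG'.integral_prod_right' (ν := volume.restrict (Ioc t 0))
  simp only [intervalIntegral]
  exact h1.measurable.sub h2.measurable

theorem LMS_proof : LMS_stmt := by
  intro Γ k B D hD
  refine ⟨fun t => LMS_Phi hD t, fun A R V hV => ?_, fun F h e t hT => ?_⟩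
  · have hSC : SecondCountableTopology SL(2, ℝ) := A_GLC.2.1
    have hP := LMS_Phi hD (A.tu R)
    have h1 : Measurable (fun q : (SL(2, ℝ) × ℝ) × (ℝ × ℝ × ℝ × ℝ) => V (PhiN D (A.tu R) q.1 q.2) +
        V (ngM * (PhiN D (A.tu R) q.1 q.2).1, (PhiN D (A.tu R) q.1 q.2).2)) := by
      refine (hV.comp hP).add (hV.comp ?_)
      exact ((measurable_fst.comp hP).const_mul ngM).prodMk (measurable_snd.comp hP)
    exact h1.lintegral_prod_right'
  · have h3 : Measurable (avP D h t) := by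
      have h1 := LMS_int _ (LMS_meas Γ k B D hD _ hT.inv.1) t
      exact h1.const_mul t⁻¹
    exact measurableSet_le measurable_const (continuous_abs.measurable.comp (h3.sub_const (mean F h)))

end

end Pool.Agent.VN
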